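import Pool.Agent.H424R2.SG.Main

/-!
# Symmetric equilibria of symmetric games of rank two (and more) are `PPAD`-hard to find
-/

namespace Pool.Agent.Results.MP_226422_lc.SymNEHard

open Pool.Agent.H424R2.PPAD Pool.Agent.H424R2.SG

/-- For every `r ≥ 2`, in particular for `r = 2, 3, 4, 5`, finding a symmetric Nash equilibrium of
a symmetric bimatrix game `(A, Aᵀ)` with `rank (A + Aᵀ) ≤ r` is `PPAD`-hard: End-of-Line, and hence
every search problem reducible to it, reduces to this problem in polynomial time. -/
theorem result : ∀ r : ℕ, 2 ≤ r → PPADHard (SymNE r) := fun r hr => main r hr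

end Pool.Agent.Results.MP_226422_lc.SymNEHard
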